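import Pool.Agent.TH63.RD.X429.RDTools

/-!
# RD1: rapid decay from centre sets
-/

set_option autoImplicit false

namespace Pool.Agent.TH63.RD.X429.RDCrit

open Pool.Agent.TH63.RD (RDB)
open Pool.Agent.TH63.RD.X429.RDTools
open MonoidAlgebra
open scoped ENNReal


theorem sum_le_of_zero_off {α : Type*} (S T : Finset α) (φ : α → ℝ) (h0 : ∀ x, 0 ≤ φ x)
    (hz : ∀ x, x ∉ T → φ x = 0) : ∑ x ∈ S, φ x ≤ ∑ x ∈ T, φ x := by
  classical
  have h1 : ∑ x ∈ S, φ x = ∑ x ∈ S with x ∈ T, φ x := by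
    rw [Finset.sum_filter_of_ne]
    intro x _ hx
    by_contra hxT
    exact hx (hz x hxT)
  rw [h1]
  apply Finset.sum_le_sum_of_subset_of_nonneg
  · intro x hx
    exact (Finset.mem_filter.mp hx).2
  · intro x _ _
    exact h0 x

theorem tsum_ind_le {G : Type*} (p : G → Prop) [DecidablePred p] (P : ℕ) (s : Finset G)
    (hs : s.card ≤ P) (hp : ∀ x, p x → x ∈ s) (c : ℝ≥0∞) :
    ∑' x, (if p x then c else 0) ≤ P * c := by
  classical
  have h1 : ∑' x, (if p x then c else 0) = ∑ x ∈ s, (if p x then c else 0) := by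
    apply tsum_eq_sum
    intro x hx
    rw [if_neg (fun h => hx (hp x h))]
  rw [h1]
  calc ∑ x ∈ s, (if p x then c else 0) ≤ ∑ x ∈ s, c := by
        apply Finset.sum_le_sum
        intro x _
        split_ifs
        · exact le_refl _
        · exact bot_le
    _ = s.card * c := by rw [Finset.sum_const, nsmul_eq_mul]
    _ ≤ P * c := by gcongr

theorem rd_crit {G : Type*} [Group G] (ℓ : G → ℕ) (T : G → Set G) (r A P : ℕ)
    (h1 : ∀ h u : G, ℓ h ≤ r → ∃ m, m ∈ T h ∧ m ∈ T u ∧ h⁻¹ * m ∈ T (h⁻¹ * u))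
    (h2 : ∀ u, ∃ s : Finset G, s.card ≤ P ∧ ∀ m ∈ T u, ℓ m ≤ A → m ∈ s)
    (h3 : ∀ h m, ℓ h ≤ r → m ∈ T h → ℓ m ≤ A ∧ ℓ (h⁻¹ * m) ≤ A) :
    RDB ℓ r ((P : ℝ) ^ 3) := by
  classical
  intro f g hf
  choose s hsP hs using h2
  set a : G → ℝ := fun m => ∑ h ∈ f.coeff.support,
    if (m ∈ T h ∧ ℓ m ≤ A) then f.coeff h ^ 2 else 0 with ha
  set b : G → ℝ := fun t => ∑ w ∈ g.coeff.support,
    if (w * t ∈ T w ∧ ℓ (w * t) ≤ A) then g.coeff w ^ 2 else 0 with hb
  have ha0 : ∀ m, 0 ≤ a m := fun m => Finset.sum_nonneg fun h _ => by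
    split_ifs
    · exact sq_nonneg _
    · exact le_refl _
  have hb0 : ∀ m, 0 ≤ b m := fun m => Finset.sum_nonneg fun h _ => by
    split_ifs
    · exact sq_nonneg _
    · exact le_refl _
  have key : ∀ u, ((f * g).coeff u) ^ 2 ≤ (P : ℝ) * ∑ m ∈ s u, a m * b (u⁻¹ * m) := by
    intro u
    set X : G → G → ℝ := fun m h => if (m ∈ T h ∧ ℓ m ≤ A) then |f.coeff h| else 0 with hX
    set Y : G → G → ℝ := fun m h =>
      if (h⁻¹ * m ∈ T (h⁻¹ * u) ∧ ℓ (h⁻¹ * m) ≤ A) then |g.coeff (h⁻¹ * u)| else 0 with hY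
    have X0 : ∀ m h, 0 ≤ X m h := by
      intro m h; simp only [hX]; split_ifs
      · exact abs_nonneg _
      · exact le_refl _
    have Y0 : ∀ m h, 0 ≤ Y m h := by
      intro m h; simp only [hY]; split_ifs
      · exact abs_nonneg _
      · exact le_refl _
    have e1 : |(f * g).coeff u| ≤ ∑ m ∈ s u, ∑ h ∈ f.coeff.support, X m h * Y m h := by
      rw [coeff_mul_apply_left, Finsupp.sum, Finset.sum_comm]
      refine (Finset.abs_sum_le_sum_abs _ _).trans ?_
      apply Finset.sum_le_sum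
      intro h hh
      obtain ⟨m, m1, m2, m3⟩ := h1 h u (hf h hh)
      obtain ⟨l1, l2⟩ := h3 h m (hf h hh) m1
      have hms : m ∈ s u := hs u m m2 l1
      have e2 : |f.coeff h * g.coeff (h⁻¹ * u)| = X m h * Y m h := by
        simp only [hX, hY]
        rw [if_pos ⟨m1, l1⟩, if_pos ⟨m3, l2⟩, abs_mul]
      rw [e2]
      exact Finset.single_le_sum (f := fun m => X m h * Y m h)
        (fun i _ => mul_nonneg (X0 i h) (Y0 i h)) hms
    have e3 : ∀ m, (∑ h ∈ f.coeff.support, X m h * Y m h) ^ 2 ≤ a m * b (u⁻¹ * m) := by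
      intro m
      refine (Finset.sum_mul_sq_le_sq_mul_sq _ _ _).trans ?_
      have f1 : ∑ h ∈ f.coeff.support, X m h ^ 2 = a m := by
        simp only [ha]
        apply Finset.sum_congr rfl
        intro h _
        simp only [hX]
        split_ifs
        · exact sq_abs _
        · norm_num
      have f2 : ∑ h ∈ f.coeff.support, Y m h ^ 2 ≤ b (u⁻¹ * m) := by
        set φ : G → ℝ := fun w =>
          if (w * (u⁻¹ * m) ∈ T w ∧ ℓ (w * (u⁻¹ * m)) ≤ A) then g.coeff w ^ 2 else 0 with hφ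
        have g1 : ∀ h, Y m h ^ 2 = φ (h⁻¹ * u) := by
          intro h
          have : h⁻¹ * u * (u⁻¹ * m) = h⁻¹ * m := by group
          simp only [hY, hφ]
          rw [this]
          split_ifs
          · exact sq_abs _
          · norm_num
        have g2 : ∑ h ∈ f.coeff.support, Y m h ^ 2
            = ∑ w ∈ f.coeff.support.image (fun h => h⁻¹ * u), φ w := by
          rw [Finset.sum_image]
          · exact Finset.sum_congr rfl fun h _ => g1 h
          · intro x _ y _ hxy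
            simpa using hxy
        rw [g2]
        refine (sum_le_of_zero_off _ g.coeff.support φ ?_ ?_).trans (le_of_eq rfl)
        · intro x
          simp only [hφ]
          split_ifs
          · exact sq_nonneg _
          · exact le_refl _
        · intro x hx
          rw [Finsupp.notMem_support_iff] at hx
          simp only [hφ]
          rw [hx]
          simp
      rw [f1]
      exact mul_le_mul_of_nonneg_left f2 (ha0 m)
    calc ((f * g).coeff u) ^ 2 = |(f * g).coeff u| ^ 2 := (sq_abs _).symm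
      _ ≤ (∑ m ∈ s u, ∑ h ∈ f.coeff.support, X m h * Y m h) ^ 2 :=
        pow_le_pow_left₀ (abs_nonneg _) e1 2
      _ ≤ ((s u).card : ℝ) * ∑ m ∈ s u, (∑ h ∈ f.coeff.support, X m h * Y m h) ^ 2 :=
        sq_sum_le_card_mul_sum_sq
      _ ≤ (P : ℝ) * ∑ m ∈ s u, a m * b (u⁻¹ * m) := by
        have c1 : ((s u).card : ℝ) ≤ P := by exact_mod_cast hsP u
        have c2 : ∑ m ∈ s u, (∑ h ∈ f.coeff.support, X m h * Y m h) ^ 2
            ≤ ∑ m ∈ s u, a m * b (u⁻¹ * m) := Finset.sum_le_sum fun m _ => e3 m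
        have c3 : 0 ≤ ∑ m ∈ s u, (∑ h ∈ f.coeff.support, X m h * Y m h) ^ 2 :=
          Finset.sum_nonneg fun _ _ => sq_nonneg _
        exact mul_le_mul c1 c2 c3 (Nat.cast_nonneg _)
  -- sum everything in ENNReal
  have hsum : ENNReal.ofReal (Pool.Agent.TH63.RD.sq (f * g))
      ≤ P * ((∑' m, ENNReal.ofReal (a m)) * ∑' t, ENNReal.ofReal (b t)) := by
    have k1 : ENNReal.ofReal (Pool.Agent.TH63.RD.sq (f * g))
        = ∑ u ∈ (f * g).coeff.support, ENNReal.ofReal ((f * g).coeff u ^ 2) := by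
      rw [Pool.Agent.TH63.RD.sq, ENNReal.ofReal_sum_of_nonneg fun _ _ => sq_nonneg _]
    rw [k1]
    calc ∑ u ∈ (f * g).coeff.support, ENNReal.ofReal ((f * g).coeff u ^ 2)
        ≤ ∑' u, ENNReal.ofReal ((f * g).coeff u ^ 2) := ENNReal.sum_le_tsum _
      _ ≤ ∑' u, (P * ∑' m, ENNReal.ofReal (a m) * ENNReal.ofReal (b (u⁻¹ * m))) := by
        apply ENNReal.tsum_le_tsum
        intro u
        refine (ENNReal.ofReal_le_ofReal (key u)).trans ?_
        rw [ENNReal.ofReal_mul (Nat.cast_nonneg _), ENNReal.ofReal_natCast,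
          ENNReal.ofReal_sum_of_nonneg fun m _ => mul_nonneg (ha0 m) (hb0 _)]
        gcongr
        refine (Finset.sum_le_sum fun m _ => ?_).trans (ENNReal.sum_le_tsum (s u))
        rw [ENNReal.ofReal_mul (ha0 m)]
      _ = P * ∑' u, ∑' m, ENNReal.ofReal (a m) * ENNReal.ofReal (b (u⁻¹ * m)) :=
        ENNReal.tsum_mul_left
      _ = P * ((∑' m, ENNReal.ofReal (a m)) * ∑' t, ENNReal.ofReal (b t)) := by
        congr 1
        rw [ENNReal.tsum_comm, ← ENNReal.tsum_mul_right]
        congr 1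
        funext m
        rw [ENNReal.tsum_mul_left]
        congr 1
        have := Equiv.tsum_eq ((Equiv.inv G).trans (Equiv.mulRight m))
          (fun t => ENNReal.ofReal (b t))
        exact this
  have hA : ∑' m, ENNReal.ofReal (a m) ≤ ENNReal.ofReal (P * Pool.Agent.TH63.RD.sq f) := by
    have k1 : ∀ m, ENNReal.ofReal (a m) = ∑ h ∈ f.coeff.support,
        (if (m ∈ T h ∧ ℓ m ≤ A) then ENNReal.ofReal (f.coeff h ^ 2) else 0) := by
      intro m
      simp only [ha]
      rw [ENNReal.ofReal_sum_of_nonneg]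
      · apply Finset.sum_congr rfl
        intro h _
        split_ifs
        · rfl
        · exact ENNReal.ofReal_zero
      · intro h _
        split_ifs
        · exact sq_nonneg _
        · exact le_refl _
    simp_rw [k1]
    rw [Summable.tsum_finsetSum (fun _ _ => ENNReal.summable)]
    rw [ENNReal.ofReal_mul (Nat.cast_nonneg _), ENNReal.ofReal_natCast, Pool.Agent.TH63.RD.sq,
      ENNReal.ofReal_sum_of_nonneg fun _ _ => sq_nonneg _, Finset.mul_sum]
    apply Finset.sum_le_sum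
    intro h _
    exact tsum_ind_le _ P (s h) (hsP h) (fun x hx => hs h x hx.1 hx.2) _
  have hB : ∑' t, ENNReal.ofReal (b t) ≤ ENNReal.ofReal (P * Pool.Agent.TH63.RD.sq g) := by
    have k1 : ∀ t, ENNReal.ofReal (b t) = ∑ w ∈ g.coeff.support,
        (if (w * t ∈ T w ∧ ℓ (w * t) ≤ A) then ENNReal.ofReal (g.coeff w ^ 2) else 0) := by
      intro t
      simp only [hb]
      rw [ENNReal.ofReal_sum_of_nonneg]
      · apply Finset.sum_congr rfl
        intro h _
        split_ifs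
        · rfl
        · exact ENNReal.ofReal_zero
      · intro h _
        split_ifs
        · exact sq_nonneg _
        · exact le_refl _
    simp_rw [k1]
    rw [Summable.tsum_finsetSum (fun _ _ => ENNReal.summable)]
    rw [ENNReal.ofReal_mul (Nat.cast_nonneg _), ENNReal.ofReal_natCast, Pool.Agent.TH63.RD.sq,
      ENNReal.ofReal_sum_of_nonneg fun _ _ => sq_nonneg _, Finset.mul_sum]
    apply Finset.sum_le_sum
    intro w _
    apply tsum_ind_le _ P ((s w).image (fun m => w⁻¹ * m)) (Finset.card_image_le.trans (hsP w))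
    intro x hx
    rw [Finset.mem_image]
    exact ⟨w * x, hs w _ hx.1 hx.2, by group⟩
  have hfin : ENNReal.ofReal (Pool.Agent.TH63.RD.sq (f * g)) ≤ ENNReal.ofReal ((P : ℝ) ^ 3 * Pool.Agent.TH63.RD.sq f * Pool.Agent.TH63.RD.sq g) := by
    refine hsum.trans ?_
    have e : (P : ℝ) ^ 3 * Pool.Agent.TH63.RD.sq f * Pool.Agent.TH63.RD.sq g = (P : ℝ) * ((P * Pool.Agent.TH63.RD.sq f) * (P * Pool.Agent.TH63.RD.sq g)) := by ring
    have p1 : 0 ≤ (P : ℝ) * Pool.Agent.TH63.RD.sq f := mul_nonneg (Nat.cast_nonneg _) (sq_nonneg' f)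
    rw [e, ENNReal.ofReal_mul (Nat.cast_nonneg _), ENNReal.ofReal_mul p1,
      ENNReal.ofReal_natCast]
    gcongr
  have p3 : 0 ≤ (P : ℝ) ^ 3 * Pool.Agent.TH63.RD.sq f * Pool.Agent.TH63.RD.sq g :=
    mul_nonneg (mul_nonneg (by positivity) (sq_nonneg' f)) (sq_nonneg' g)
  exact (ENNReal.ofReal_le_ofReal_iff p3).mp hfin

end Pool.Agent.TH63.RD.X429.RDCrit
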