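import Pool.Agent.TH63.RD.X429.RDTools

/-!
# RD2: strong convergence step
-/

set_option autoImplicit false

namespace Pool.Agent.TH63.RD.X429.RDStrong

open Pool.Agent.TH63.RD (RDB)
open Pool.Agent.TH63.RD.X429.RDTools
open MonoidAlgebra


variable {G : Type*} [Group G]

theorem adj_pow (B : MonoidAlgebra ℝ G) (hB : adj B = B) (n : ℕ) : adj (B ^ n) = B ^ n := by
  induction n with
  | zero =>
    rw [pow_zero, one_def, adj_single, inv_one]
  | succ n ih => rw [pow_succ, adj_mul, hB, ih, ← pow_succ', pow_succ]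

theorem power_step (B g : MonoidAlgebra ℝ G) (hB : adj B = B) (h0 : 0 ≤ ip g (B * g)) (k : ℕ) :
    0 ≤ ip g (B ^ (2 ^ k) * g) ∧
      ip g (B * g) ^ (2 ^ k) ≤ ip g (B ^ (2 ^ k) * g) * Pool.Agent.TH63.RD.sq g ^ (2 ^ k - 1) := by
  induction k with
  | zero => simpa using h0
  | succ k ih =>
    obtain ⟨ih0, ih1⟩ := ih
    set C := B ^ (2 ^ k) with hC
    have hCa : adj C = C := adj_pow B hB _
    have e : B ^ (2 ^ (k + 1)) = C * C := by
      rw [hC, ← pow_add]; congr 1; ring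
    have e2 : ip g (C * C * g) = Pool.Agent.TH63.RD.sq (C * g) := by
      rw [sq_eq, ip_mul, hCa, mul_assoc]
    have cs := ip_cs g (C * g)
    rw [e, e2]
    refine ⟨sq_nonneg' _, ?_⟩
    have hg0 := sq_nonneg' g
    have h1 : ip g (B * g) ^ (2 ^ (k + 1)) ≤ (ip g (C * g) * Pool.Agent.TH63.RD.sq g ^ (2 ^ k - 1)) ^ 2 := by
      rw [pow_succ 2 k, pow_mul]
      exact pow_le_pow_left₀ (pow_nonneg h0 _) ih1 2
    have h2 : (ip g (C * g) * Pool.Agent.TH63.RD.sq g ^ (2 ^ k - 1)) ^ 2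
        ≤ (Pool.Agent.TH63.RD.sq g * Pool.Agent.TH63.RD.sq (C * g)) * (Pool.Agent.TH63.RD.sq g ^ (2 ^ k - 1)) ^ 2 := by
      rw [mul_pow]
      exact mul_le_mul_of_nonneg_right cs (sq_nonneg _)
    have h3 : (Pool.Agent.TH63.RD.sq g * Pool.Agent.TH63.RD.sq (C * g)) * (Pool.Agent.TH63.RD.sq g ^ (2 ^ k - 1)) ^ 2
        = Pool.Agent.TH63.RD.sq (C * g) * Pool.Agent.TH63.RD.sq g ^ (2 ^ (k + 1) - 1) := by
      have h4 : 2 ^ (k + 1) - 1 = (2 ^ k - 1) * 2 + 1 := by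
        have : 0 < 2 ^ k := by positivity
        rw [pow_succ]; omega
      rw [h4]
      generalize 2 ^ k - 1 = t
      ring
    exact h1.trans (h2.trans h3.le)

theorem ball_pow (ℓ : G → ℕ) (h1 : ℓ 1 = 0) (hm : ∀ g h, ℓ (g * h) ≤ ℓ g + ℓ h)
    (B : MonoidAlgebra ℝ G) (R : ℕ) (hB : ∀ x ∈ B.coeff.support, ℓ x ≤ R) (n : ℕ) :
    ∀ x ∈ (B ^ n).coeff.support, ℓ x ≤ n * R := by
  classical
  induction n with
  | zero =>
    intro x hx
    rw [pow_zero, one_def, coeff_single] at hx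
    have := Finsupp.support_single_subset hx
    rw [Finset.mem_singleton] at this
    rw [this, h1]; omega
  | succ n ih =>
    intro x hx
    rw [pow_succ] at hx
    obtain ⟨a, ha, b, hb, rfl⟩ := mem_support_mul hx
    have := hm a b
    have := ih a ha
    have := hB b hb
    nlinarith

theorem strong_conv {G Q : Type*} [Group G] [Group Q] (π : G →* Q) (ℓ : G → ℕ) (ℓ' : Q → ℕ)
    (h1 : ℓ 1 = 0) (hi : ∀ g, ℓ g⁻¹ = ℓ g) (hm : ∀ g h, ℓ (g * h) ≤ ℓ g + ℓ h)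
    (hle : ∀ g, ℓ' (π g) ≤ ℓ g) (hl : ∀ q, ∃ g, π g = q ∧ ℓ g ≤ ℓ' q)
    (r : ℕ) (K : ℝ) (hK : 1 ≤ K) (hG : RDB ℓ r K) (j : ℕ) (L : ℝ)
    (hQ : RDB ℓ' (2 ^ j * (2 * r)) L)
    (hinj : ∀ g, π g = 1 → ℓ g ≤ 2 ^ j * (4 * r) → g = 1)
    (E : ℝ) (hE0 : 0 ≤ E) (hE : L * K ^ (2 * 2 ^ j) ≤ E ^ (2 * 2 ^ j)) :
    RDB ℓ' r E := by
  classical
  intro f g hf
  choose s hs hsl using hl
  obtain ⟨hF, hFs⟩ := lift π s hs f
  set F := mapDomain s f with hFdef
  have hFball : ∀ x ∈ F.coeff.support, ℓ x ≤ r := by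
    intro x hx
    obtain ⟨y, hy, rfl⟩ := mem_support_map s hx
    exact (hsl y).trans (hf y hy)
  have hFball' : ∀ x ∈ (adj F).coeff.support, ℓ x ≤ r := by
    intro x hx
    rw [← hi]
    exact hFball _ (mem_support_adj hx)
  set n := 2 ^ j with hn
  have hnpos : 0 < n := by positivity
  set BB := adj F * F with hBB
  set B := adj f * f with hB
  have hmapBB : mapDomain π BB = B := by
    rw [hBB, mapDomain_mul, map_adj, hF]
  have hmapPow : ∀ k, mapDomain π (BB ^ k) = B ^ k := by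
    intro k
    have := map_pow (mapDomainRingHom ℝ π) BB k
    rw [← hmapBB]
    exact this
  have hBadj : adj B = B := by rw [hB, adj_mul, adj_adj]
  have hBBball : ∀ x ∈ BB.coeff.support, ℓ x ≤ 2 * r := by
    intro x hx
    obtain ⟨a, ha, b, hb, rfl⟩ := mem_support_mul hx
    have := hm a b
    have := hFball' a ha
    have := hFball b hb
    omega
  have hBBn := ball_pow ℓ h1 hm BB (2 * r) hBBball n
  have hBn : ∀ x ∈ (B ^ n).coeff.support, ℓ' x ≤ n * (2 * r) := by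
    intro x hx
    rw [← hmapPow n] at hx
    obtain ⟨y, hy, rfl⟩ := mem_support_map π hx
    exact (hle y).trans (hBBn y hy)
  have hsqpow : Pool.Agent.TH63.RD.sq (B ^ n) = Pool.Agent.TH63.RD.sq (BB ^ n) := by
    rw [← hmapPow n]
    apply sq_map_of_inj
    intro a ha b hb hab
    apply hinj _ hab
    have := hm a⁻¹ b
    rw [hi] at this
    have := hBBn a ha
    have := hBBn b hb
    nlinarith
  -- the bound in G
  have hstep : ∀ X : MonoidAlgebra ℝ G, Pool.Agent.TH63.RD.sq (BB * X) ≤ (K * Pool.Agent.TH63.RD.sq F) ^ 2 * Pool.Agent.TH63.RD.sq X := by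
    intro X
    rw [hBB, mul_assoc]
    have e1 := hG (adj F) (F * X) hFball'
    have e2 := hG F X hFball
    rw [sq_adj] at e1
    have : 0 ≤ K * Pool.Agent.TH63.RD.sq F := mul_nonneg (by linarith) (sq_nonneg' _)
    calc Pool.Agent.TH63.RD.sq (adj F * (F * X)) ≤ K * Pool.Agent.TH63.RD.sq F * Pool.Agent.TH63.RD.sq (F * X) := e1
      _ ≤ K * Pool.Agent.TH63.RD.sq F * (K * Pool.Agent.TH63.RD.sq F * Pool.Agent.TH63.RD.sq X) := mul_le_mul_of_nonneg_left e2 this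
      _ = (K * Pool.Agent.TH63.RD.sq F) ^ 2 * Pool.Agent.TH63.RD.sq X := by ring
  have hpowb : ∀ k : ℕ, Pool.Agent.TH63.RD.sq (BB ^ (k + 1)) ≤ K ^ (2 * k + 1) * Pool.Agent.TH63.RD.sq F ^ (2 * k + 2) := by
    intro k
    induction k with
    | zero =>
      have e1 := hG (adj F) F hFball'
      rw [sq_adj] at e1
      simp only [zero_add, pow_one, mul_zero]
      calc Pool.Agent.TH63.RD.sq BB ≤ K * Pool.Agent.TH63.RD.sq F * Pool.Agent.TH63.RD.sq F := e1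
        _ = K * Pool.Agent.TH63.RD.sq F ^ 2 := by ring
    | succ k ih =>
      rw [pow_succ' BB (k + 1)]
      calc Pool.Agent.TH63.RD.sq (BB * BB ^ (k + 1)) ≤ (K * Pool.Agent.TH63.RD.sq F) ^ 2 * Pool.Agent.TH63.RD.sq (BB ^ (k + 1)) := hstep _
        _ ≤ (K * Pool.Agent.TH63.RD.sq F) ^ 2 * (K ^ (2 * k + 1) * Pool.Agent.TH63.RD.sq F ^ (2 * k + 2)) :=
          mul_le_mul_of_nonneg_left ih (sq_nonneg _)
        _ = K ^ (2 * (k + 1) + 1) * Pool.Agent.TH63.RD.sq F ^ (2 * (k + 1) + 2) := by ring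
  have hBBn2 : Pool.Agent.TH63.RD.sq (BB ^ n) ≤ K ^ (2 * n - 1) * Pool.Agent.TH63.RD.sq F ^ (2 * n) := by
    obtain ⟨k, hk⟩ : ∃ k, n = k + 1 := ⟨n - 1, by omega⟩
    rw [hk]
    have := hpowb k
    have e1 : 2 * (k + 1) - 1 = 2 * k + 1 := by omega
    have e2 : 2 * (k + 1) = 2 * k + 2 := by ring
    rw [e1, e2]
    exact this
  -- the powers in Q
  have hipeq : Pool.Agent.TH63.RD.sq (f * g) = ip g (B * g) := by
    rw [sq_eq, ip_mul, hB, mul_assoc]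
  have hip0 : 0 ≤ ip g (B * g) := by rw [← hipeq]; exact sq_nonneg' _
  obtain ⟨p0, p1⟩ := power_step B g hBadj hip0 j
  rw [← hn, ← hipeq] at p1
  rw [← hn] at p0
  have hcs := ip_cs g (B ^ n * g)
  have hQ1 := hQ (B ^ n) g hBn
  have x0 := sq_nonneg' (f * g)
  have u0 := sq_nonneg' f
  have v0 := sq_nonneg' g
  have hmain : Pool.Agent.TH63.RD.sq (f * g) ^ (2 * n) ≤ L * Pool.Agent.TH63.RD.sq (B ^ n) * Pool.Agent.TH63.RD.sq g ^ (2 * n) := by
    calc Pool.Agent.TH63.RD.sq (f * g) ^ (2 * n) = (Pool.Agent.TH63.RD.sq (f * g) ^ n) ^ 2 := by rw [← pow_mul]; congr 1; ring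
      _ ≤ (ip g (B ^ n * g) * Pool.Agent.TH63.RD.sq g ^ (n - 1)) ^ 2 :=
        pow_le_pow_left₀ (pow_nonneg x0 _) p1 2
      _ = ip g (B ^ n * g) ^ 2 * (Pool.Agent.TH63.RD.sq g ^ (n - 1)) ^ 2 := by ring
      _ ≤ (Pool.Agent.TH63.RD.sq g * Pool.Agent.TH63.RD.sq (B ^ n * g)) * (Pool.Agent.TH63.RD.sq g ^ (n - 1)) ^ 2 :=
        mul_le_mul_of_nonneg_right hcs (sq_nonneg _)
      _ ≤ (Pool.Agent.TH63.RD.sq g * (L * Pool.Agent.TH63.RD.sq (B ^ n) * Pool.Agent.TH63.RD.sq g)) * (Pool.Agent.TH63.RD.sq g ^ (n - 1)) ^ 2 :=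
        mul_le_mul_of_nonneg_right (mul_le_mul_of_nonneg_left hQ1 v0) (sq_nonneg _)
      _ = L * Pool.Agent.TH63.RD.sq (B ^ n) * Pool.Agent.TH63.RD.sq g ^ (2 * n) := by
        obtain ⟨k, hk⟩ : ∃ k, n = k + 1 := ⟨n - 1, by omega⟩
        rw [hk]
        have e1 : k + 1 - 1 = k := rfl
        rw [e1]
        ring
  have hfin : Pool.Agent.TH63.RD.sq (f * g) ^ (2 * n) ≤ (E * Pool.Agent.TH63.RD.sq f * Pool.Agent.TH63.RD.sq g) ^ (2 * n) := by
    rcases lt_or_ge L 0 with hL | hL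
    · have : L * Pool.Agent.TH63.RD.sq (B ^ n) * Pool.Agent.TH63.RD.sq g ^ (2 * n) ≤ 0 := by
        apply mul_nonpos_of_nonpos_of_nonneg _ (pow_nonneg v0 _)
        exact mul_nonpos_of_nonpos_of_nonneg hL.le (sq_nonneg' _)
      exact hmain.trans (this.trans (by positivity))
    · have hb : Pool.Agent.TH63.RD.sq (B ^ n) ≤ K ^ (2 * n) * Pool.Agent.TH63.RD.sq f ^ (2 * n) := by
        rw [hsqpow, ← hFs]
        refine hBBn2.trans ?_
        apply mul_le_mul_of_nonneg_right _ (pow_nonneg (sq_nonneg' _) _)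
        exact pow_le_pow_right₀ hK (by omega)
      calc Pool.Agent.TH63.RD.sq (f * g) ^ (2 * n) ≤ L * Pool.Agent.TH63.RD.sq (B ^ n) * Pool.Agent.TH63.RD.sq g ^ (2 * n) := hmain
        _ ≤ L * (K ^ (2 * n) * Pool.Agent.TH63.RD.sq f ^ (2 * n)) * Pool.Agent.TH63.RD.sq g ^ (2 * n) := by
          apply mul_le_mul_of_nonneg_right _ (pow_nonneg v0 _)
          exact mul_le_mul_of_nonneg_left hb hL
        _ = (L * K ^ (2 * n)) * (Pool.Agent.TH63.RD.sq f ^ (2 * n) * Pool.Agent.TH63.RD.sq g ^ (2 * n)) := by ring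
        _ ≤ E ^ (2 * n) * (Pool.Agent.TH63.RD.sq f ^ (2 * n) * Pool.Agent.TH63.RD.sq g ^ (2 * n)) := by
          apply mul_le_mul_of_nonneg_right hE
          positivity
        _ = (E * Pool.Agent.TH63.RD.sq f * Pool.Agent.TH63.RD.sq g) ^ (2 * n) := by ring
  exact le_of_pow_le_pow_left₀ (by omega) (by positivity) hfin

end Pool.Agent.TH63.RD.X429.RDStrong
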