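import Pool.Agent.TH63.RD.Def

/-!
# Tools for the rapid decay jobs: adjoint, inner product, change of group
-/

set_option autoImplicit false

namespace Pool.Agent.TH63.RD.X429.RDTools

open Pool.Agent.TH63.RD (RDB)
open MonoidAlgebra


variable {G : Type*} [Group G]

/-- the adjoint -/
noncomputable def adj (f : MonoidAlgebra ℝ G) : MonoidAlgebra ℝ G :=
  mapDomain (fun x : G => x⁻¹) f

theorem adj_coeff (f : MonoidAlgebra ℝ G) (x : G) : (adj f).coeff x = f.coeff x⁻¹ := by
  have h := Finsupp.mapDomain_apply (f := fun x : G => x⁻¹) inv_injective f.coeff x⁻¹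
  simp only [inv_inv] at h
  exact h

theorem adj_adj (f : MonoidAlgebra ℝ G) : adj (adj f) = f := by
  apply coeff_injective
  ext x
  rw [adj_coeff, adj_coeff, inv_inv]

theorem adj_add (f g : MonoidAlgebra ℝ G) : adj (f + g) = adj f + adj g :=
  mapDomain_add _ _ _

theorem adj_zero : adj (0 : MonoidAlgebra ℝ G) = 0 := mapDomain_zero _

theorem adj_single (a : G) (r : ℝ) : adj (single a r) = single a⁻¹ r := mapDomain_single

theorem adj_mul (f g : MonoidAlgebra ℝ G) : adj (f * g) = adj g * adj f := by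
  induction f using MonoidAlgebra.induction_linear with
  | zero => simp [adj_zero]
  | add f1 f2 h1 h2 => rw [add_mul, adj_add, adj_add, mul_add, h1, h2]
  | single a r =>
    induction g using MonoidAlgebra.induction_linear with
    | zero => simp [adj_zero]
    | add f1 f2 h1 h2 => rw [mul_add, adj_add, adj_add, add_mul, h1, h2]
    | single b t =>
      rw [single_mul_single, adj_single, adj_single, adj_single, single_mul_single, mul_inv_rev,
        mul_comm r t]

/-- inner product -/
noncomputable def ip (f g : MonoidAlgebra ℝ G) : ℝ := (adj f * g).coeff 1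

theorem ip_eq (f g : MonoidAlgebra ℝ G) :
    ip f g = ∑ x ∈ g.coeff.support, f.coeff x * g.coeff x := by
  unfold ip
  rw [coeff_mul_apply_right, Finsupp.sum]
  apply Finset.sum_congr rfl
  intro x _
  rw [adj_coeff]
  simp

theorem sq_eq (f : MonoidAlgebra ℝ G) : Pool.Agent.TH63.RD.sq f = ip f f := by
  rw [ip_eq, Pool.Agent.TH63.RD.sq]
  apply Finset.sum_congr rfl
  intro x _
  ring

theorem sq_nonneg' (f : MonoidAlgebra ℝ G) : 0 ≤ Pool.Agent.TH63.RD.sq f :=
  Finset.sum_nonneg fun _ _ => sq_nonneg _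

theorem sq_eq_of_support (f : MonoidAlgebra ℝ G) (s : Finset G) (hs : f.coeff.support ⊆ s) :
    Pool.Agent.TH63.RD.sq f = ∑ x ∈ s, f.coeff x ^ 2 := by
  unfold Pool.Agent.TH63.RD.sq
  apply Finset.sum_subset hs
  intro x _ hx
  rw [Finsupp.notMem_support_iff] at hx
  rw [hx]; norm_num

theorem ip_cs (f g : MonoidAlgebra ℝ G) : ip f g ^ 2 ≤ Pool.Agent.TH63.RD.sq f * Pool.Agent.TH63.RD.sq g := by
  classical
  rw [sq_eq_of_support f (f.coeff.support ∪ g.coeff.support) Finset.subset_union_left,
    sq_eq_of_support g (f.coeff.support ∪ g.coeff.support) Finset.subset_union_right, ip_eq]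
  rw [Finset.sum_subset (s₁ := g.coeff.support)
    (s₂ := f.coeff.support ∪ g.coeff.support) Finset.subset_union_right]
  · exact Finset.sum_mul_sq_le_sq_mul_sq _ _ _
  · intro x _ hx
    rw [Finsupp.notMem_support_iff] at hx
    rw [hx, mul_zero]

theorem ip_mul (f g h : MonoidAlgebra ℝ G) : ip (f * g) h = ip g (adj f * h) := by
  unfold ip
  rw [adj_mul, mul_assoc]

theorem sq_adj (f : MonoidAlgebra ℝ G) : Pool.Agent.TH63.RD.sq (adj f) = Pool.Agent.TH63.RD.sq f := by
  classical
  have hsub : (adj f).coeff.support = f.coeff.support.image (fun x => x⁻¹) := by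
    ext x
    rw [Finsupp.mem_support_iff, adj_coeff, Finset.mem_image]
    constructor
    · intro h
      exact ⟨x⁻¹, Finsupp.mem_support_iff.mpr h, inv_inv x⟩
    · rintro ⟨y, hy, rfl⟩
      rw [inv_inv]
      exact Finsupp.mem_support_iff.mp hy
  unfold Pool.Agent.TH63.RD.sq
  rw [hsub, Finset.sum_image (fun _ _ _ _ h => inv_injective h)]
  apply Finset.sum_congr rfl
  intro x _
  rw [adj_coeff, inv_inv]

theorem mem_support_mul {f g : MonoidAlgebra ℝ G} {x : G} (hx : x ∈ (f * g).coeff.support) :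
    ∃ a ∈ f.coeff.support, ∃ b ∈ g.coeff.support, a * b = x := by
  rw [Finsupp.mem_support_iff, coeff_mul_apply_left, Finsupp.sum] at hx
  obtain ⟨h, hh, hne⟩ := Finset.exists_ne_zero_of_sum_ne_zero hx
  refine ⟨h, hh, h⁻¹ * x, ?_, by group⟩
  rw [Finsupp.mem_support_iff]
  exact right_ne_zero_of_mul hne

theorem mem_support_adj {f : MonoidAlgebra ℝ G} {x : G} (hx : x ∈ (adj f).coeff.support) :
    x⁻¹ ∈ f.coeff.support := by
  rw [Finsupp.mem_support_iff, adj_coeff] at hx
  exact Finsupp.mem_support_iff.mpr hx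

variable {Q : Type*} [Group Q]

theorem map_adj (π : G →* Q) (f : MonoidAlgebra ℝ G) :
    mapDomain π (adj f) = adj (mapDomain π f) := by
  induction f using MonoidAlgebra.induction_linear with
  | zero => simp [adj_zero, mapDomain_zero]
  | add f1 f2 h1 h2 => rw [adj_add, mapDomain_add, mapDomain_add, adj_add, h1, h2]
  | single a r => rw [adj_single, mapDomain_single, mapDomain_single, adj_single, map_inv]

theorem map_coeff_one (π : G →* Q) (f : MonoidAlgebra ℝ G) (p : G → Prop) [DecidablePred p]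
    (hp : ∀ x ∈ f.coeff.support, p x ↔ π x = 1) :
    (mapDomain π f).coeff 1 = ∑ x ∈ f.coeff.support with p x, f.coeff x := by
  classical
  have h : (mapDomain π f).coeff 1
      = ∑ x ∈ f.coeff.support, (if π x = 1 then f.coeff x else 0) := by
    show (Finsupp.mapDomain π f.coeff) 1 = _
    rw [Finsupp.mapDomain, Finsupp.sum_apply, Finsupp.sum]
    apply Finset.sum_congr rfl
    intro x _
    rw [Finsupp.single_apply]
  rw [h, Finset.sum_filter]
  apply Finset.sum_congr rfl
  intro x hx
  by_cases hpx : p x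
  · rw [if_pos hpx, if_pos ((hp x hx).mp hpx)]
  · rw [if_neg hpx, if_neg (fun h => hpx ((hp x hx).mpr h))]

theorem sq_map (π : G →* Q) (f : MonoidAlgebra ℝ G) :
    Pool.Agent.TH63.RD.sq (mapDomain π f) = (mapDomain π (adj f * f)).coeff 1 := by
  rw [sq_eq, ip, ← map_adj, ← mapDomain_mul]

/-- the squared norm of two images agree if the two maps identify the same points of the
support -/
theorem sq_map_eq {Q' : Type*} [Group Q'] (π : G →* Q) (ψ : G →* Q') (f : MonoidAlgebra ℝ G)
    (h : ∀ a ∈ f.coeff.support, ∀ b ∈ f.coeff.support, π (a⁻¹ * b) = 1 ↔ ψ (a⁻¹ * b) = 1) :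
    Pool.Agent.TH63.RD.sq (mapDomain π f) = Pool.Agent.TH63.RD.sq (mapDomain ψ f) := by
  classical
  rw [sq_map, sq_map, map_coeff_one π _ (fun x => π x = 1) (fun _ _ => Iff.rfl),
    map_coeff_one ψ _ (fun x => π x = 1)]
  intro x hx
  obtain ⟨a, ha, b, hb, rfl⟩ := mem_support_mul hx
  have := h a⁻¹ (mem_support_adj ha) b hb
  rwa [inv_inv] at this

theorem sq_map_of_inj (π : G →* Q) (f : MonoidAlgebra ℝ G)
    (h : ∀ a ∈ f.coeff.support, ∀ b ∈ f.coeff.support, π (a⁻¹ * b) = 1 → a⁻¹ * b = 1) :
    Pool.Agent.TH63.RD.sq (mapDomain π f) = Pool.Agent.TH63.RD.sq f := by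
  have h1 := sq_map_eq π (MonoidHom.id G) f (by
    intro a ha b hb
    constructor
    · intro hh
      simpa using h a ha b hb hh
    · intro hh
      have : a⁻¹ * b = 1 := by simpa using hh
      rw [this, map_one])
  rw [h1]
  congr 1
  apply coeff_injective
  show Finsupp.mapDomain (MonoidHom.id G) f.coeff = f.coeff
  exact Finsupp.mapDomain_id

theorem mem_support_map (s : G → Q) {f : MonoidAlgebra ℝ G} {x : Q}
    (hx : x ∈ (mapDomain s f).coeff.support) : ∃ y ∈ f.coeff.support, s y = x := by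
  classical
  have h : x ∈ f.coeff.support.image s := Finsupp.mapDomain_support hx
  rw [Finset.mem_image] at h
  exact h

/-- lifting along a section -/
theorem lift (π : G →* Q) (s : Q → G) (hs : ∀ q, π (s q) = q) (f : MonoidAlgebra ℝ Q) :
    mapDomain π (mapDomain s f) = f ∧ Pool.Agent.TH63.RD.sq (mapDomain s f) = Pool.Agent.TH63.RD.sq f := by
  have h1 : mapDomain π (mapDomain s f) = f := by
    apply coeff_injective
    show Finsupp.mapDomain π (Finsupp.mapDomain s f.coeff) = f.coeff
    rw [← Finsupp.mapDomain_comp]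
    have : (⇑π ∘ s) = id := funext hs
    rw [this, Finsupp.mapDomain_id]
  refine ⟨h1, ?_⟩
  have h2 := sq_map_of_inj π (mapDomain s f) (by
    intro a ha b hb hab
    obtain ⟨x, -, rfl⟩ := mem_support_map s ha
    obtain ⟨y, -, rfl⟩ := mem_support_map s hb
    rw [map_mul, map_inv, hs, hs, inv_mul_eq_one] at hab
    rw [hab, inv_mul_cancel])
  rw [h1] at h2
  exact h2.symm

end Pool.Agent.TH63.RD.X429.RDTools
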